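import Pool.Agent.Helper63.TwoPath.Img3
import Pool.Agent.Helper63.TwoPath.Img4

/-!
From an additive-cube-free word over `{0, 1, 2}` to all alphabets of three integers.
-/

set_option autoImplicit false

namespace Pool.Agent.Helper63.TwoPath

open Finset

/-- no additive cube: three consecutive nonempty blocks of equal lengths and equal sums -/
def Free (w : ℕ → ℤ) : Prop :=
  ∀ p n : ℕ, 0 < n → ¬ (∑ i ∈ range n, w (p + i) = ∑ i ∈ range n, w (p + n + i) ∧
    ∑ i ∈ range n, w (p + n + i) = ∑ i ∈ range n, w (p + 2 * n + i))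

/-- prefix sums of an integer word -/
def F (w : ℕ → ℤ) (n : ℕ) : ℤ := ∑ i ∈ range n, w i

theorem F_add (w : ℕ → ℤ) (p n : ℕ) : F w (p + n) = F w p + ∑ i ∈ range n, w (p + i) := by
  rw [F, F, sum_range_add]

theorem F_of_cube {w : ℕ → ℤ} {p n : ℕ}
    (h : ∑ i ∈ range n, w (p + i) = ∑ i ∈ range n, w (p + n + i) ∧
    ∑ i ∈ range n, w (p + n + i) = ∑ i ∈ range n, w (p + 2 * n + i)) :
    F w p + F w (p + 2 * n) = 2 * F w (p + n) ∧
      F w (p + n) + F w (p + 3 * n) = 2 * F w (p + 2 * n) := by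
  have h1 := F_add w p n
  have h2 := F_add w (p + n) n
  have h3 := F_add w (p + 2 * n) n
  rw [show p + n + n = p + 2 * n by ring] at h2
  rw [show p + 2 * n + n = p + 3 * n by ring] at h3
  obtain ⟨e1, e2⟩ := h
  constructor <;> linarith

theorem free_affine {v : ℕ → ℕ} (hv : ∀ p n : ℕ, 0 < n → ¬ Cube v p n) {α β : ℤ} (hβ : β ≠ 0) :
    Free (fun n => α + β * (v n : ℤ)) := by
  intro p n hn hC
  obtain ⟨h1, h2⟩ := F_of_cube (w := fun n => α + β * (v n : ℤ)) hC
  have hF : ∀ k, F (fun n => α + β * (v n : ℤ)) k = α * k + β * (S v k : ℤ) := by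
    intro k
    rw [F, S, sum_add_distrib, ← mul_sum]
    simp [mul_comm]
  rw [hF, hF, hF] at h1
  rw [hF, hF, hF] at h2
  apply hv p n hn
  push_cast at h1 h2
  constructor
  · have : β * ((S v p : ℤ) + S v (p + 2 * n) - 2 * S v (p + n)) = 0 := by linarith
    rcases mul_eq_zero.mp this with h | h
    · exact absurd h hβ
    · have : (S v p : ℤ) + S v (p + 2 * n) = 2 * S v (p + n) := by linarith
      exact_mod_cast this
  · have : β * ((S v (p + n) : ℤ) + S v (p + 3 * n) - 2 * S v (p + 2 * n)) = 0 := by linarith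
    rcases mul_eq_zero.mp this with h | h
    · exact absurd h hβ
    · have : (S v (p + n) : ℤ) + S v (p + 3 * n) = 2 * S v (p + 2 * n) := by linarith
      exact_mod_cast this

/-- the value of a letter of the universal word -/
def val (x y z : ℤ) (v : ℕ) : ℤ := if v = 1 then y else if v = 4 then z else x

theorem coprime_aux {a b o t : ℤ} (hab : IsCoprime a b) (hb : 5 ≤ b) (ho : |o| ≤ 4)
    (h : a * o + b * t = 0) : o = 0 ∧ t = 0 := by
  have h1 : b ∣ a * o := ⟨-t, by linarith⟩
  have h2 : b ∣ o := (hab.symm).dvd_of_dvd_mul_left h1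
  have h3 : o = 0 := Int.eq_zero_of_abs_lt_dvd h2 (by omega)
  refine ⟨h3, ?_⟩
  rw [h3] at h
  have : b * t = 0 := by linarith
  rcases mul_eq_zero.mp this with h4 | h4
  · omega
  · exact h4

theorem free_val {v : ℕ → ℕ} (hv : ∀ p n : ℕ, 0 < n → ¬ Cube v p n)
    (hl : ∀ n, v n = 0 ∨ v n = 1 ∨ v n = 4)
    (ho : ∀ p n : ℕ, |(cntOne v p : ℤ) + cntOne v (p + 2 * n) - 2 * cntOne v (p + n)| ≤ 4)
    {x y z G a b : ℤ} (hG : 0 < G) (hy : y = x + G * a) (hz : z = x + G * b)
    (hab : IsCoprime a b) (hb : 5 ≤ b) : Free (fun n => val x y z (v n)) := by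
  intro p n hn hC
  obtain ⟨h1, h2⟩ := F_of_cube (w := fun n => val x y z (v n)) hC
  set T : ℕ → ℤ := fun k => ∑ i ∈ range k, if v i = 4 then 1 else 0 with hT
  have hS : ∀ k, (S v k : ℤ) = cntOne v k + 4 * T k := by
    intro k
    rw [S, cntOne, hT]
    push_cast
    rw [mul_sum, ← sum_add_distrib]
    apply sum_congr rfl
    intro i _
    rcases hl i with h | h | h <;> simp [h]
  have hF : ∀ k, F (fun n => val x y z (v n)) k = x * k + G * (a * cntOne v k + b * T k) := by
    intro k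
    rw [F, cntOne, hT]
    push_cast
    rw [mul_sum, mul_sum, ← sum_add_distrib, mul_sum,
      show x * (k : ℤ) = ∑ i ∈ range k, x by simp [mul_comm], ← sum_add_distrib]
    apply sum_congr rfl
    intro i _
    rcases hl i with h | h | h <;> simp [h, val, hy, hz]
  rw [hF, hF, hF] at h1
  rw [hF, hF, hF] at h2
  push_cast at h1 h2
  have k1 : a * ((cntOne v p : ℤ) + cntOne v (p + 2 * n) - 2 * cntOne v (p + n))
      + b * (T p + T (p + 2 * n) - 2 * T (p + n)) = 0 := by
    have : G * (a * ((cntOne v p : ℤ) + cntOne v (p + 2 * n) - 2 * cntOne v (p + n))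
      + b * (T p + T (p + 2 * n) - 2 * T (p + n))) = 0 := by linarith
    rcases mul_eq_zero.mp this with h | h
    · omega
    · exact h
  have k2 : a * ((cntOne v (p + n) : ℤ) + cntOne v (p + n + 2 * n) - 2 * cntOne v (p + n + n))
      + b * (T (p + n) + T (p + 3 * n) - 2 * T (p + 2 * n)) = 0 := by
    have : G * (a * ((cntOne v (p + n) : ℤ) + cntOne v (p + n + 2 * n) - 2 * cntOne v (p + n + n))
      + b * (T (p + n) + T (p + 3 * n) - 2 * T (p + 2 * n))) = 0 := by
      rw [show p + n + 2 * n = p + 3 * n by ring, show p + n + n = p + 2 * n by ring]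
      linarith
    rcases mul_eq_zero.mp this with h | h
    · omega
    · exact h
  obtain ⟨o1, t1⟩ := coprime_aux hab hb (ho p n) k1
  obtain ⟨o2, t2⟩ := coprime_aux hab hb (ho (p + n) n) k2
  rw [show p + n + 2 * n = p + 3 * n by ring, show p + n + n = p + 2 * n by ring] at o2
  apply hv p n hn
  have s0 := hS p
  have s1 := hS (p + n)
  have s2 := hS (p + 2 * n)
  have s3 := hS (p + 3 * n)
  constructor
  · have : (S v p : ℤ) + S v (p + 2 * n) = 2 * S v (p + n) := by linarith
    exact_mod_cast this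
  · have : (S v (p + n) : ℤ) + S v (p + 3 * n) = 2 * S v (p + 2 * n) := by linarith
    exact_mod_cast this

section

variable {w : ℕ → ℕ}

/-- the word over `{0, 1, 3}` -/
def w3 (w : ℕ → ℕ) : ℕ → ℕ := Img3.dat.W w

/-- the universal word over `{0, 1, 4}` -/
def w4 (w : ℕ → ℕ) : ℕ → ℕ := Img4.dat.W w

theorem w3_free (hw : ∀ n, w n < 3) (hc : ∀ p n : ℕ, 0 < n → ¬ Cube w p n) :
    ∀ p n : ℕ, 0 < n → ¬ Cube (w3 w) p n := by
  intro p n hn hC
  obtain ⟨p', m, hm, -, h⟩ := step Img3.ok hw hn hC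
  exact hc p' m hm h

theorem w4_free (hw : ∀ n, w n < 3) (hc : ∀ p n : ℕ, 0 < n → ¬ Cube w p n) :
    ∀ p n : ℕ, 0 < n → ¬ Cube (w4 w) p n := by
  intro p n hn hC
  obtain ⟨p', m, hm, -, h⟩ := step Img4.ok hw hn hC
  exact hc p' m hm h

theorem w3_mem (hw : ∀ n, w n < 3) (n : ℕ) : w3 w n = 0 ∨ w3 w n = 1 ∨ w3 w n = 3 := by
  have := letters_of_check (g := 68) (d := 31) (c := Img3.dat.c) Img3.letters_ok (by norm_num) hw n
  change w3 w n ∈ [0, 1, 3] at this
  simpa using this

theorem w4_mem (hw : ∀ n, w n < 3) (n : ℕ) : w4 w n = 0 ∨ w4 w n = 1 ∨ w4 w n = 4 := by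
  have := letters_of_check (g := 99) (d := 40) (c := Img4.dat.c) Img4.letters_ok (by norm_num) hw n
  change w4 w n ∈ [0, 1, 4] at this
  simpa using this

theorem w4_ones (hw : ∀ n, w n < 3) (p n : ℕ) :
    |(cntOne (w4 w) p : ℤ) + cntOne (w4 w) (p + 2 * n) - 2 * cntOne (w4 w) (p + n)| ≤ 4 := by
  have h := fun k => ones_bound Img4.ones_ok Img4.ok hw k
  have h0 := h p
  have h1 := h (p + n)
  have h2 := h (p + 2 * n)
  change 19 * p ≤ 79 * cntOne (w4 w) p + 115 ∧ 79 * cntOne (w4 w) p ≤ 19 * p + 74 at h0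
  change 19 * (p + n) ≤ 79 * cntOne (w4 w) (p + n) + 115 ∧
    79 * cntOne (w4 w) (p + n) ≤ 19 * (p + n) + 74 at h1
  change 19 * (p + 2 * n) ≤ 79 * cntOne (w4 w) (p + 2 * n) + 115 ∧
    79 * cntOne (w4 w) (p + 2 * n) ≤ 19 * (p + 2 * n) + 74 at h2
  rw [abs_le]
  omega

theorem of_lt (hw : ∀ n, w n < 3) (hc : ∀ p n : ℕ, 0 < n → ¬ Cube w p n) {x y z : ℤ}
    (hxy : x < y) (hyz : y < z) :
    ∃ v : ℕ → ℤ, (∀ n, v n = x ∨ v n = y ∨ v n = z) ∧ Free v := by
  obtain ⟨a, ha⟩ := Int.eq_ofNat_of_zero_le (show 0 ≤ y - x by omega)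
  obtain ⟨b, hb⟩ := Int.eq_ofNat_of_zero_le (show 0 ≤ z - x by omega)
  have ha0 : 0 < a := by omega
  have hab : a < b := by omega
  set G := Nat.gcd a b with hG
  have hG0 : 0 < G := Nat.gcd_pos_of_pos_left b ha0
  obtain ⟨a', ha'⟩ := Nat.gcd_dvd_left a b
  obtain ⟨b', hb'⟩ := Nat.gcd_dvd_right a b
  rw [← hG] at ha' hb'
  have hcop : Nat.Coprime a' b' := by
    have h1 : a / G = a' := by rw [ha']; exact Nat.mul_div_cancel_left a' hG0
    have h2 : b / G = b' := by rw [hb']; exact Nat.mul_div_cancel_left b' hG0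
    rw [← h1, ← h2]
    exact Nat.coprime_div_gcd_div_gcd (hG ▸ hG0)
  have ha'0 : 0 < a' := by
    rcases Nat.eq_zero_or_pos a' with h | h
    · rw [h, mul_zero] at ha'; omega
    · exact h
  have hab' : a' < b' := by
    by_contra hcon
    push Not at hcon
    have := Nat.mul_le_mul_left G hcon
    omega
  have hy : y = x + (G : ℤ) * a' := by
    have : (a : ℤ) = (G : ℤ) * a' := by exact_mod_cast ha'
    omega
  have hz : z = x + (G : ℤ) * b' := by
    have : (b : ℤ) = (G : ℤ) * b' := by exact_mod_cast hb'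
    omega
  have hGz : (G : ℤ) ≠ 0 := by exact_mod_cast hG0.ne'
  rcases Nat.lt_or_ge b' 5 with h5 | h5
  · have hc3 := w3_free hw hc
    have hc4 := w4_free hw hc
    have m3 := w3_mem hw
    have m4 := w4_mem hw
    interval_cases b'
    · omega
    · omega
    · have : a' = 1 := by omega
      subst this
      refine ⟨fun n => x + (G : ℤ) * (w n : ℤ), fun n => ?_, free_affine hc hGz⟩
      have := hw n
      rcases (show w n = 0 ∨ w n = 1 ∨ w n = 2 by omega) with h | h | h
      · left; simp [h]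
      · right; left; dsimp only; rw [hy, h]
      · right; right; dsimp only; rw [hz, h]
    · have : a' = 1 ∨ a' = 2 := by omega
      rcases this with rfl | rfl
      · refine ⟨fun n => x + (G : ℤ) * (w3 w n : ℤ), fun n => ?_, free_affine hc3 hGz⟩
        rcases m3 n with h | h | h
        · left; simp [h]
        · right; left; dsimp only; rw [hy, h]
        · right; right; dsimp only; rw [hz, h]
      · refine ⟨fun n => z + (-(G : ℤ)) * (w3 w n : ℤ), fun n => ?_,
          free_affine hc3 (neg_ne_zero.mpr hGz)⟩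
        rcases m3 n with h | h | h
        · right; right; simp [h]
        · right; left; dsimp only; rw [hy, hz, h]; push_cast; ring
        · left; dsimp only; rw [hz, h]; push_cast; ring
    · have : a' = 1 ∨ a' = 2 ∨ a' = 3 := by omega
      rcases this with rfl | rfl | rfl
      · refine ⟨fun n => x + (G : ℤ) * (w4 w n : ℤ), fun n => ?_, free_affine hc4 hGz⟩
        rcases m4 n with h | h | h
        · left; simp [h]
        · right; left; dsimp only; rw [hy, h]
        · right; right; dsimp only; rw [hz, h]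
      · exact absurd hcop (by decide)
      · refine ⟨fun n => z + (-(G : ℤ)) * (w4 w n : ℤ), fun n => ?_,
          free_affine hc4 (neg_ne_zero.mpr hGz)⟩
        rcases m4 n with h | h | h
        · right; right; simp [h]
        · right; left; dsimp only; rw [hy, hz, h]; push_cast; ring
        · left; dsimp only; rw [hz, h]; push_cast; ring
  · refine ⟨fun n => val x y z (w4 w n), fun n => ?_, ?_⟩
    · rcases w4_mem hw n with h | h | h <;> simp [val, h]
    · exact free_val (w4_free hw hc) (w4_mem hw) (w4_ones hw) (by exact_mod_cast hG0) hy hz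
        (Nat.isCoprime_iff_coprime.mpr hcop) (by exact_mod_cast h5)

theorem of_card (hw : ∀ n, w n < 3) (hc : ∀ p n : ℕ, 0 < n → ¬ Cube w p n) (A : Finset ℤ)
    (hA : A.card = 3) : ∃ v : ℕ → ℤ, (∀ n, v n ∈ A) ∧ Free v := by
  have h01 : A.orderEmbOfFin hA 0 < A.orderEmbOfFin hA 1 :=
    (A.orderEmbOfFin hA).strictMono (by decide)
  have h12 : A.orderEmbOfFin hA 1 < A.orderEmbOfFin hA 2 :=
    (A.orderEmbOfFin hA).strictMono (by decide)
  obtain ⟨v, hv, hf⟩ := of_lt hw hc h01 h12
  refine ⟨v, fun n => ?_, hf⟩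
  rcases hv n with h | h | h <;> rw [h] <;> exact A.orderEmbOfFin_mem hA _

end

end Pool.Agent.Helper63.TwoPath
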