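import Pool.Agent.Helper63.TwoPath.Step

/-!
A kernel-checkable certificate for `Dat.Ok`: the set of classes is a bit mask.
-/

set_option autoImplicit false

namespace Pool.Agent.Helper63.TwoPath

/-- union of the translates of `S0` by the multiples `< 4` of one row and of `d` -/
def SEr (S0 d : ℕ) : ℕ :=
  Nat.lor (Nat.lor (Nat.lor S0 (Nat.shiftLeft S0 d)) (Nat.shiftLeft S0 (2 * d)))
    (Nat.shiftLeft S0 (3 * d))

def SE (S0 L d W : ℕ) : ℕ := SEr (SEr S0 d) (L * W)

/-- membership in a set of classes coded by `S0` -/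
def isCb (S0 W r s : ℕ) : Bool := Nat.testBit S0 (r * W + s)

theorem tb_shift {x n k : ℕ} (h : x.testBit n = true) :
    (Nat.shiftLeft x k).testBit (n + k) = true := by
  show (x <<< k).testBit (n + k) = true
  rw [Nat.testBit_shiftLeft]
  simp [h]

theorem tb_SEr {x n d j : ℕ} (hj : j < 4) (h : x.testBit n = true) :
    (SEr x d).testBit (n + j * d) = true := by
  unfold SEr
  show (((x ||| x <<< d) ||| x <<< (2 * d)) ||| x <<< (3 * d)).testBit (n + j * d) = true
  have h1 := tb_shift (k := d) h
  have h2 := tb_shift (k := 2 * d) h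
  have h3 := tb_shift (k := 3 * d) h
  change (x <<< d).testBit _ = true at h1
  change (x <<< (2 * d)).testBit _ = true at h2
  change (x <<< (3 * d)).testBit _ = true at h3
  simp only [Nat.testBit_or]
  interval_cases j
  · simp [h]
  · rw [one_mul, h1]; simp
  · rw [h2]; simp
  · rw [h3]; simp

theorem tb_SE {S0 L d W r s i j : ℕ} (hi : i < 4) (hj : j < 4)
    (h : isCb S0 W r s = true) :
    (SE S0 L d W).testBit ((r + i * L) * W + (s + j * d)) = true := by
  have h1 := tb_SEr (d := d) hj h
  have h2 := tb_SEr (d := L * W) hi h1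
  rw [show (r + i * L) * W + (s + j * d) = r * W + s + j * d + i * (L * W) by ring]
  exact h2

theorem tb_SE' {S0 L d W r s : ℕ} (hL : 0 < L) (hd : 0 < d) (hr : r < 4 * L) (hs : s < 4 * d)
    (h : isCb S0 W (r % L) (s % d) = true) :
    (SE S0 L d W).testBit (r * W + s) = true := by
  have h1 := tb_SE (i := r / L) (j := s / d) (L := L) (d := d)
    ((Nat.div_lt_iff_lt_mul hL).2 hr) ((Nat.div_lt_iff_lt_mul hd).2 hs) h
  rwa [show r % L + r / L * L = r by rw [mul_comm]; exact Nat.mod_add_div r L,
    show s % d + s / d * d = s by rw [mul_comm]; exact Nat.mod_add_div s d] at h1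

def chk4 (S0 E k : ℕ) : Bool :=
  Nat.beq (Nat.land (Nat.land (Nat.land S0 (Nat.shiftRight E k)) (Nat.shiftRight E (2 * k)))
    (Nat.shiftRight E (3 * k))) 0

def apOK (S0 E L d W : ℕ) : Bool :=
  (List.range L).all fun a => (List.range d).all fun b =>
    Nat.beq (a + b) 0 || chk4 S0 E (a * W + b)

theorem ap_of_check {S0 L d W : ℕ} (hL : 0 < L) (hd : 0 < d)
    (h : apOK S0 (SE S0 L d W) L d W = true) :
    ∀ r s a b, r < L → s < d → a < L → b < d → isCb S0 W r s = true →
    isCb S0 W ((r + a) % L) ((s + b) % d) = true →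
    isCb S0 W ((r + 2 * a) % L) ((s + 2 * b) % d) = true →
    isCb S0 W ((r + 3 * a) % L) ((s + 3 * b) % d) = true → a = 0 ∧ b = 0 := by
  intro r s a b hr hs ha hb h0 h1 h2 h3
  have t1 := tb_SE' (W := W) hL hd (show r + a < 4 * L by omega) (show s + b < 4 * d by omega) h1
  have t2 := tb_SE' (W := W) hL hd (show r + 2 * a < 4 * L by omega) (show s + 2 * b < 4 * d by omega) h2
  have t3 := tb_SE' (W := W) hL hd (show r + 3 * a < 4 * L by omega) (show s + 3 * b < 4 * d by omega) h3
  rw [apOK, List.all_eq_true] at h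
  have h4 := h a (List.mem_range.2 ha)
  rw [List.all_eq_true] at h4
  have h5 := h4 b (List.mem_range.2 hb)
  rw [Bool.or_eq_true] at h5
  rcases h5 with h5 | h5
  · have := Nat.eq_of_beq_eq_true h5
    omega
  · exfalso
    have h6 := Nat.eq_of_beq_eq_true h5
    set E := SE S0 L d W
    change ((S0 &&& (E >>> (a * W + b))) &&& (E >>> (2 * (a * W + b)))) &&& (E >>> (3 * (a * W + b))) = 0 at h6
    have h7 := congrArg (fun x => Nat.testBit x (r * W + s)) h6
    simp only [Nat.testBit_and, Nat.testBit_shiftRight, Nat.zero_testBit] at h7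
    rw [show a * W + b + (r * W + s) = (r + a) * W + (s + b) by ring,
      show 2 * (a * W + b) + (r * W + s) = (r + 2 * a) * W + (s + 2 * b) by ring,
      show 3 * (a * W + b) + (r * W + s) = (r + 3 * a) * W + (s + 3 * b) by ring,
      t1, t2, t3, show S0.testBit (r * W + s) = true from h0] at h7
    exact absurd h7 (by simp)

/-- the data coded by three numbers whose digits in base `2^16` are the prefix sums -/
def mkP (n0 n1 n2 x r : ℕ) : ℕ :=
  Nat.land (Nat.shiftRight (match x with | 0 => n0 | 1 => n1 | _ => n2) (16 * r)) 65535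

def rowOK (P : ℕ → ℕ → ℕ) (S0 W d c r : ℕ) : Bool :=
  (List.range 3).all fun x => Nat.ble (P x r) (P x (r + 1)) &&
    (Nat.testBit S0 (r * W + (P x r + c * r) % d) &&
    (((List.range 3).all fun y => !(Nat.beq (P y r % d) (P x r % d)) || Nat.beq (P y r) (P x r)) ||
    ((List.range 3).all fun y => !(Nat.beq (P y r % d) (P x r % d)) ||
      Nat.beq (P y r + d * x) (P x r + d * y))))

def allOK (P : ℕ → ℕ → ℕ) (S0 W L g d c : ℕ) : Bool :=
  Nat.ble 1 L && (Nat.ble 1 d && (Nat.beq ((c * L + g) % d) 0 &&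
    (((List.range 3).all fun x => Nat.beq (P x 0) 0 && Nat.beq (P x L) (g + d * x)) &&
      (List.range L).all fun r => rowOK P S0 W d c r)))

theorem ok_of_check {P : ℕ → ℕ → ℕ} {S0 E W L g d c : ℕ} (h1 : allOK P S0 W L g d c = true)
    (hE : Nat.beq E (SE S0 L d W) = true) (h2 : apOK S0 E L d W = true) :
    Dat.Ok ⟨L, g, d, c, P⟩ (isCb S0 W) := by
  have hE' := Nat.eq_of_beq_eq_true hE
  subst hE'
  simp only [allOK, Bool.and_eq_true, Nat.ble_eq, List.all_eq_true, List.mem_range] at h1
  obtain ⟨hL, hd, hc, h0, hr⟩ := h1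
  have hrow : ∀ r < L, ∀ x < 3, P x r ≤ P x (r + 1) ∧ isCb S0 W r ((P x r + c * r) % d) = true ∧
      ((∀ y < 3, P y r % d = P x r % d → P y r = P x r) ∨
      (∀ y < 3, P y r % d = P x r % d → P y r + d * x = P x r + d * y)) := by
    intro r hrL x hx
    have := hr r hrL
    simp only [rowOK, List.all_eq_true, List.mem_range, Bool.and_eq_true, Bool.or_eq_true,
      Bool.not_eq_true', Nat.ble_eq] at this
    obtain ⟨a1, a2, a3⟩ := this x hx
    refine ⟨a1, a2, ?_⟩
    rcases a3 with a3 | a3
    · left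
      intro y hy he
      rcases a3 y hy with b | b
      · rw [he] at b
        rw [Nat.beq_refl] at b
        exact absurd b (by simp)
      · exact Nat.eq_of_beq_eq_true b
    · right
      intro y hy he
      rcases a3 y hy with b | b
      · rw [he] at b
        rw [Nat.beq_refl] at b
        exact absurd b (by simp)
      · exact Nat.eq_of_beq_eq_true b
  exact {
    L0 := hL
    d0 := hd
    hc := Nat.eq_of_beq_eq_true hc
    P0 := fun x hx => Nat.eq_of_beq_eq_true (h0 x hx).1
    PL := fun x hx => Nat.eq_of_beq_eq_true (h0 x hx).2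
    mono := fun x hx r hr => (hrow r hr x hx).1
    cls := fun x hx r hr => (hrow r hr x hx).2.1
    typ := fun r hr x hx => (hrow r hr x hx).2.2
    ap := ap_of_check hL hd h2 }

end Pool.Agent.Helper63.TwoPath
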