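import Pool.Agent.Helper63.TwoPath.Ones

/-!
Fixed points of uniform morphisms on `{0, 1, 2}`.
-/

set_option autoImplicit false

namespace Pool.Agent.Helper63.TwoPath

/-- the fixed point starting with the letter `a` -/
def fix (D : Dat) (a : ℕ) (hL : 1 < D.L) : ℕ → ℕ
  | 0 => a
  | n + 1 => D.img (fix D a hL ((n + 1) / D.L)) ((n + 1) % D.L)
termination_by n => n
decreasing_by exact Nat.div_lt_self (Nat.succ_pos n) hL

theorem fix_eq {D : Dat} {a : ℕ} (hL : 1 < D.L) (ha : D.img a 0 = a) (n : ℕ) :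
    D.W (fix D a hL) n = fix D a hL n := by
  cases n with
  | zero =>
    rw [Dat.W, Nat.zero_div, Nat.zero_mod, fix, ha]
  | succ n => rw [Dat.W, ← fix]

theorem fix_lt {D : Dat} {a : ℕ} (hL : 1 < D.L) (ha : a < 3)
    (hD : ∀ x < 3, ∀ i < D.L, D.img x i < 3) (n : ℕ) : fix D a hL n < 3 := by
  induction n using Nat.strong_induction_on with
  | _ n ih =>
    cases n with
    | zero => rw [fix]; exact ha
    | succ n =>
      rw [fix]
      exact hD _ (ih _ (Nat.div_lt_self (Nat.succ_pos n) hL)) _ (Nat.mod_lt _ (by omega))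

theorem fix_free {D : Dat} {a : ℕ} {isC : ℕ → ℕ → Bool} (hL : 1 < D.L) (hok : D.Ok isC)
    (hlt : ∀ n, fix D a hL n < 3) (ha : D.img a 0 = a) :
    ∀ n p : ℕ, 0 < n → ¬ Cube (fix D a hL) p n := by
  intro n
  induction n using Nat.strong_induction_on with
  | _ n ih =>
    intro p hn hC
    have e : D.W (fix D a hL) = fix D a hL := funext (fix_eq hL ha)
    rw [← e] at hC
    obtain ⟨p', m, hm, hnm, h⟩ := step hok hlt hn hC
    refine ih m ?_ p' hm h
    rw [hnm]
    nlinarith

end Pool.Agent.Helper63.TwoPath
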