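import Pool.Agent.Helper63.TwoPath.Check

/-!
Letters of the images, and the number of letters `1` in the prefixes of an image word.
-/

set_option autoImplicit false

namespace Pool.Agent.Helper63.TwoPath

open Finset

variable {D : Dat} {w : ℕ → ℕ}

def lettersOK (P : ℕ → ℕ → ℕ) (L : ℕ) (l : List ℕ) : Bool :=
  (List.range 3).all fun x => (List.range L).all fun r =>
    l.any fun v => Nat.beq (P x r + v) (P x (r + 1))

theorem letters_of_check {L g d c : ℕ} {P : ℕ → ℕ → ℕ} {l : List ℕ}
    (h : lettersOK P L l = true) (hL : 0 < L) (hw : ∀ n, w n < 3) (n : ℕ) :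
    (Dat.mk L g d c P).W w n ∈ l := by
  simp only [lettersOK, List.all_eq_true, List.mem_range, List.any_eq_true] at h
  obtain ⟨v, hv, he⟩ := h (w (n / L)) (hw _) (n % L) (Nat.mod_lt _ hL)
  have := Nat.eq_of_beq_eq_true he
  have e : (Dat.mk L g d c P).W w n = v := by
    show P (w (n / L)) (n % L + 1) - P (w (n / L)) (n % L) = v
    omega
  rw [e]; exact hv

def onesOK (P O : ℕ → ℕ → ℕ) (L B K K' : ℕ) : Bool :=
  (List.range 3).all fun x => (Nat.beq (O x 0) 0 && Nat.beq (O x L) B) &&
    ((List.range L).all fun r =>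
      Nat.beq (O x (r + 1)) (O x r + bif Nat.beq (P x r + 1) (P x (r + 1)) then 1 else 0) &&
      (Nat.ble (B * r) (L * O x r + K) && Nat.ble (L * O x r) (B * r + K')))

/-- number of letters `1` among the first `n` letters -/
def cntOne (v : ℕ → ℕ) (n : ℕ) : ℕ := ∑ i ∈ range n, if v i = 1 then 1 else 0

theorem cntOne_succ (v : ℕ → ℕ) (n : ℕ) :
    cntOne v (n + 1) = cntOne v n + if v n = 1 then 1 else 0 := by
  rw [cntOne, cntOne, sum_range_succ]

theorem ones_bound {L g d c B K K' : ℕ} {P O : ℕ → ℕ → ℕ} {isC : ℕ → ℕ → Bool}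
    (h : onesOK P O L B K K' = true) (hok : (Dat.mk L g d c P).Ok isC) (hw : ∀ n, w n < 3) (n : ℕ) :
    B * n ≤ L * cntOne ((Dat.mk L g d c P).W w) n + K ∧
      L * cntOne ((Dat.mk L g d c P).W w) n ≤ B * n + K' := by
  set D : Dat := Dat.mk L g d c P with hD
  simp only [onesOK, List.all_eq_true, List.mem_range, Bool.and_eq_true, Nat.ble_eq] at h
  have hL : 0 < L := hok.L0
  have hO : ∀ x < 3, O x 0 = 0 ∧ O x L = B := fun x hx =>
    ⟨Nat.eq_of_beq_eq_true (h x hx).1.1, Nat.eq_of_beq_eq_true (h x hx).1.2⟩
  have hs : ∀ x < 3, ∀ r < L, O x (r + 1) = O x r + if D.img x r = 1 then 1 else 0 := by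
    intro x hx r hr
    have h1 := Nat.eq_of_beq_eq_true ((h x hx).2 r hr).1
    have hm := hok.mono x hx r hr
    change P x r ≤ P x (r + 1) at hm
    rw [h1]
    congr 1
    show _ = if P x (r + 1) - P x r = 1 then 1 else 0
    cases hb : Nat.beq (P x r + 1) (P x (r + 1))
    · have : ¬ (P x (r + 1) - P x r = 1) := by
        intro he
        have : P x r + 1 = P x (r + 1) := by omega
        rw [this, Nat.beq_refl] at hb
        exact absurd hb (by simp)
      rw [if_neg this]; rfl
    · have := Nat.eq_of_beq_eq_true hb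
      rw [if_pos (by omega)]; rfl
  have key : ∀ q r, r ≤ L → cntOne (D.W w) (L * q + r) = B * q + O (w q) r := by
    intro q
    induction q with
    | zero =>
      intro r
      induction r with
      | zero => intro _; simp [cntOne, (hO _ (hw 0)).1]
      | succ r ih =>
        intro hr
        rw [← add_assoc, cntOne_succ, ih (by omega), hs _ (hw 0) r (by omega),
          W_block hok 0 r (by show r < L; omega)]
        simp only [mul_zero, zero_add]
    | succ q ihq =>
      intro r
      induction r with
      | zero =>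
        intro _
        have h1 := ihq L le_rfl
        rw [show L * q + L = L * (q + 1) + 0 by ring] at h1
        rw [h1, (hO _ (hw q)).2, (hO _ (hw (q + 1))).1]; ring
      | succ r ih =>
        intro hr
        rw [← add_assoc, cntOne_succ, ih (by omega), hs _ (hw (q + 1)) r (by omega),
          W_block hok (q + 1) r (by show r < L; omega)]
        ring
  have hr := Nat.mod_lt n hL
  have hn := Nat.div_add_mod n L
  have hk := key (n / L) (n % L) hr.le
  rw [hn] at hk
  obtain ⟨b1, b2⟩ := ((h _ (hw (n / L))).2 _ hr).2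
  rw [hk]
  constructor
  · calc B * n = B * (L * (n / L)) + B * (n % L) := by rw [← mul_add, hn]
      _ ≤ B * (L * (n / L)) + (L * O (w (n / L)) (n % L) + K) := by omega
      _ = _ := by ring
  · calc L * (B * (n / L) + O (w (n / L)) (n % L))
        = B * (L * (n / L)) + L * O (w (n / L)) (n % L) := by ring
      _ ≤ B * (L * (n / L)) + (B * (n % L) + K') := by omega
      _ = B * n + K' := by rw [← add_assoc, ← mul_add, hn]

end Pool.Agent.Helper63.TwoPath
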