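import Mathlib

/-!
Uniform morphisms on the letters `0, 1, 2` whose classes of prefixes contain no nonconstant
four-term arithmetic progression (in the spirit of Dekking): every additive cube in an image
word comes from an additive cube of the preimage.
-/

set_option autoImplicit false

namespace Pool.Agent.Helper63.TwoPath

open Finset

/-- prefix sums -/
def S (w : ℕ → ℕ) (n : ℕ) : ℕ := ∑ i ∈ range n, w i

theorem S_zero (w : ℕ → ℕ) : S w 0 = 0 := by simp [S]

theorem S_succ (w : ℕ → ℕ) (n : ℕ) : S w (n + 1) = S w n + w n := by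
  rw [S, S, sum_range_succ]

theorem S_mono (w : ℕ → ℕ) (p n : ℕ) : S w p ≤ S w (p + n) := by
  rw [S, S, sum_range_add]; exact Nat.le_add_right _ _

/-- three consecutive blocks of length `n` with equal sums, starting at `p` -/
def Cube (w : ℕ → ℕ) (p n : ℕ) : Prop :=
  S w p + S w (p + 2 * n) = 2 * S w (p + n) ∧
    S w (p + n) + S w (p + 3 * n) = 2 * S w (p + 2 * n)

/-- data of a uniform morphism on the letters `0, 1, 2` -/
structure Dat where
  L : ℕ
  g : ℕ
  d : ℕ
  c : ℕ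
  /-- prefix sums of the images -/
  P : ℕ → ℕ → ℕ

/-- conditions on the data; `isC` is a set containing the classes of all prefixes -/
structure Dat.Ok (D : Dat) (isC : ℕ → ℕ → Bool) : Prop where
  L0 : 0 < D.L
  d0 : 0 < D.d
  hc : (D.c * D.L + D.g) % D.d = 0
  P0 : ∀ x < 3, D.P x 0 = 0
  PL : ∀ x < 3, D.P x D.L = D.g + D.d * x
  mono : ∀ x < 3, ∀ r < D.L, D.P x r ≤ D.P x (r + 1)
  cls : ∀ x < 3, ∀ r < D.L, isC r ((D.P x r + D.c * r) % D.d) = true
  typ : ∀ r < D.L, ∀ x < 3,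
    (∀ y < 3, D.P y r % D.d = D.P x r % D.d → D.P y r = D.P x r) ∨
    (∀ y < 3, D.P y r % D.d = D.P x r % D.d → D.P y r + D.d * x = D.P x r + D.d * y)
  ap : ∀ r s a b, r < D.L → s < D.d → a < D.L → b < D.d → isC r s = true →
    isC ((r + a) % D.L) ((s + b) % D.d) = true →
    isC ((r + 2 * a) % D.L) ((s + 2 * b) % D.d) = true →
    isC ((r + 3 * a) % D.L) ((s + 3 * b) % D.d) = true → a = 0 ∧ b = 0

/-- letters of the images -/
def Dat.img (D : Dat) (x i : ℕ) : ℕ := D.P x (i + 1) - D.P x i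

/-- the image word -/
def Dat.W (D : Dat) (w : ℕ → ℕ) (n : ℕ) : ℕ := D.img (w (n / D.L)) (n % D.L)

variable {D : Dat} {isC : ℕ → ℕ → Bool} {w : ℕ → ℕ}

theorem img_sum (h : D.Ok isC) {x : ℕ} (hx : x < 3) : ∀ r ≤ D.L,
    ∑ i ∈ range r, D.img x i = D.P x r := by
  intro r
  induction r with
  | zero => intro _; simp [h.P0 x hx]
  | succ r ih =>
    intro hr
    rw [sum_range_succ, ih (by omega), Dat.img]
    have := h.mono x hx r (by omega)
    omega

theorem W_block (h : D.Ok isC) (q i : ℕ) (hi : i < D.L) :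
    D.W w (D.L * q + i) = D.img (w q) i := by
  have h1 : (D.L * q + i) / D.L = q := by
    rw [Nat.mul_add_div h.L0, Nat.div_eq_of_lt hi, add_zero]
  have h2 : (D.L * q + i) % D.L = i := by
    rw [Nat.mul_add_mod, Nat.mod_eq_of_lt hi]
  rw [Dat.W, h1, h2]

theorem S_W_mul (h : D.Ok isC) (hw : ∀ n, w n < 3) (q : ℕ) :
    S (D.W w) (D.L * q) = D.g * q + D.d * S w q := by
  induction q with
  | zero => simp [S]
  | succ q ih =>
    have h1 : S (D.W w) (D.L * (q + 1)) = S (D.W w) (D.L * q) + ∑ i ∈ range D.L, D.img (w q) i := by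
      have h2 : ∑ i ∈ range D.L, D.W w (D.L * q + i) = ∑ i ∈ range D.L, D.img (w q) i :=
        sum_congr rfl (fun i hi => W_block h q i (mem_range.1 hi))
      rw [S, S, show D.L * (q + 1) = D.L * q + D.L by ring, sum_range_add, h2]
    rw [h1, ih, img_sum h (hw q) _ le_rfl, h.PL _ (hw q), S_succ]
    ring

theorem S_W_add (h : D.Ok isC) (hw : ∀ n, w n < 3) (q r : ℕ) (hr : r ≤ D.L) :
    S (D.W w) (D.L * q + r) = D.g * q + D.d * S w q + D.P (w q) r := by
  have h2 : ∑ i ∈ range r, D.W w (D.L * q + i) = ∑ i ∈ range r, D.img (w q) i :=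
    sum_congr rfl (fun i hi => W_block h q i (by have := mem_range.1 hi; omega))
  rw [← S_W_mul h hw, S, S, sum_range_add, h2, img_sum h (hw q) _ hr]

theorem S_W (h : D.Ok isC) (hw : ∀ n, w n < 3) (n : ℕ) :
    S (D.W w) n = D.g * (n / D.L) + D.d * S w (n / D.L) + D.P (w (n / D.L)) (n % D.L) := by
  have := S_W_add h hw (n / D.L) (n % D.L) (Nat.mod_lt _ h.L0).le
  rwa [Nat.div_add_mod] at this

theorem S_class (h : D.Ok isC) (hw : ∀ n, w n < 3) (n : ℕ) :
    (S (D.W w) n + D.c * n) % D.d = (D.P (w (n / D.L)) (n % D.L) + D.c * (n % D.L)) % D.d := by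
  have h1 := S_W h hw n
  have h2 : D.c * n = D.c * D.L * (n / D.L) + D.c * (n % D.L) := by
    conv_lhs => rw [← Nat.div_add_mod n D.L]
    ring
  obtain ⟨k, hk⟩ := Nat.dvd_of_mod_eq_zero h.hc
  have h3 : S (D.W w) n + D.c * n = (D.P (w (n / D.L)) (n % D.L) + D.c * (n % D.L))
      + D.d * (k * (n / D.L) + S w (n / D.L)) := by
    rw [h1, h2]
    have : (D.c * D.L + D.g) * (n / D.L) = D.d * k * (n / D.L) := by rw [hk]
    nlinarith [this]
  rw [h3, Nat.add_mul_mod_self_left]

theorem isC_class (h : D.Ok isC) (hw : ∀ n, w n < 3) (n : ℕ) :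
    isC (n % D.L) ((S (D.W w) n + D.c * n) % D.d) = true := by
  rw [S_class h hw]
  exact h.cls _ (hw _) _ (Nat.mod_lt _ h.L0)

theorem fin_aux {g d q m A s v0 v1 v2 v3 p : ℕ} (hd : 0 < d)
    (t0 : s = g * q + d * v0 + p) (t1 : s + A = g * (q + m) + d * v1 + p)
    (t2 : s + 2 * A = g * (q + 2 * m) + d * v2 + p)
    (t3 : s + 3 * A = g * (q + 3 * m) + d * v3 + p) :
    v0 + v2 = 2 * v1 ∧ v1 + v3 = 2 * v2 := by
  constructor
  · apply Nat.eq_of_mul_eq_mul_left hd
    linarith
  · apply Nat.eq_of_mul_eq_mul_left hd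
    linarith

theorem fin_aux2 {g d q m A s v0 v1 v2 v3 p p1 p2 p3 w0 w1 w2 w3 : ℕ} (hd : 0 < d)
    (t0 : s = g * q + d * v0 + p) (t1 : s + A = g * (q + m) + d * v1 + p1)
    (t2 : s + 2 * A = g * (q + 2 * m) + d * v2 + p2)
    (t3 : s + 3 * A = g * (q + 3 * m) + d * v3 + p3)
    (f1 : p1 + d * w0 = p + d * w1) (f2 : p2 + d * w0 = p + d * w2)
    (f3 : p3 + d * w0 = p + d * w3) :
    v0 + w0 + (v2 + w2) = 2 * (v1 + w1) ∧ v1 + w1 + (v3 + w3) = 2 * (v2 + w2) := by
  constructor
  · apply Nat.eq_of_mul_eq_mul_left hd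
    linarith
  · apply Nat.eq_of_mul_eq_mul_left hd
    linarith

theorem modaux (a k b L : ℕ) : (a % L + k * (b % L)) % L = (a + k * b) % L :=
  (Nat.mod_modEq a L).add ((Nat.mod_modEq b L).mul_left k)

theorem step (h : D.Ok isC) (hw : ∀ n, w n < 3) {p n : ℕ} (hn : 0 < n) (hC : Cube (D.W w) p n) :
    ∃ p' m, 0 < m ∧ n = D.L * m ∧ Cube w p' m := by
  obtain ⟨e1, e2⟩ := hC
  obtain ⟨A, hA⟩ := Nat.exists_eq_add_of_le (S_mono (D.W w) p n)
  have s2 : S (D.W w) (p + 2 * n) = S (D.W w) p + 2 * A := by omega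
  have s3 : S (D.W w) (p + 3 * n) = S (D.W w) p + 3 * A := by omega
  have hap := h.ap (p % D.L) ((S (D.W w) p + D.c * p) % D.d) (n % D.L) ((A + D.c * n) % D.d)
    (Nat.mod_lt _ h.L0) (Nat.mod_lt _ h.d0) (Nat.mod_lt _ h.L0) (Nat.mod_lt _ h.d0)
    (isC_class h hw p)
    (by
      have := isC_class h hw (p + n)
      rw [hA] at this
      rwa [← Nat.add_mod, ← Nat.add_mod,
        show S (D.W w) p + D.c * p + (A + D.c * n) = S (D.W w) p + A + D.c * (p + n) by ring])
    (by
      have := isC_class h hw (p + 2 * n)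
      rw [s2] at this
      rwa [modaux, modaux, show S (D.W w) p + D.c * p + 2 * (A + D.c * n)
        = S (D.W w) p + 2 * A + D.c * (p + 2 * n) by ring])
    (by
      have := isC_class h hw (p + 3 * n)
      rw [s3] at this
      rwa [modaux, modaux, show S (D.W w) p + D.c * p + 3 * (A + D.c * n)
        = S (D.W w) p + 3 * A + D.c * (p + 3 * n) by ring])
  obtain ⟨ha, hb⟩ := hap
  obtain ⟨m, hm⟩ := Nat.dvd_of_mod_eq_zero ha
  have hm0 : 0 < m := by
    rcases Nat.eq_zero_or_pos m with rfl | h0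
    · omega
    · exact h0
  set q := p / D.L with hq
  set r := p % D.L with hr
  have hr' : r < D.L := Nat.mod_lt _ h.L0
  have hp : p = D.L * q + r := (Nat.div_add_mod p D.L).symm
  have d1 : ∀ j, (p + j * n) / D.L = q + j * m ∧ (p + j * n) % D.L = r := by
    intro j
    have e : p + j * n = D.L * (q + j * m) + r := by rw [hp, hm]; ring
    rw [e, Nat.mul_add_div h.L0, Nat.div_eq_of_lt hr', add_zero, Nat.mul_add_mod,
      Nat.mod_eq_of_lt hr']
    exact ⟨rfl, rfl⟩
  have cl : ∀ j, j < 4 → (D.P (w (q + j * m)) r) % D.d = (D.P (w q) r) % D.d := by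
    intro j hj
    have h0 := S_class h hw p
    have hj' := S_class h hw (p + j * n)
    rw [(d1 j).1, (d1 j).2] at hj'
    rw [← hq, ← hr] at h0
    have sj : S (D.W w) (p + j * n) = S (D.W w) p + j * A := by
      interval_cases j
      · simp
      · rw [one_mul, one_mul]; exact hA
      · exact s2
      · exact s3
    have e : S (D.W w) (p + j * n) + D.c * (p + j * n)
        = (S (D.W w) p + D.c * p) + j * (A + D.c * n) := by rw [sj]; ring
    obtain ⟨k, hk⟩ := Nat.dvd_of_mod_eq_zero hb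
    rw [e, hk, show j * (D.d * k) = D.d * (j * k) by ring, Nat.add_mul_mod_self_left, h0] at hj'
    exact (Nat.ModEq.add_right_cancel' (D.c * r) hj').symm
  have T := fun j => S_W h hw (p + j * n)
  have t0 := T 0
  have t1 := T 1
  have t2 := T 2
  have t3 := T 3
  rw [(d1 0).1, (d1 0).2] at t0
  rw [(d1 1).1, (d1 1).2] at t1
  rw [(d1 2).1, (d1 2).2] at t2
  rw [(d1 3).1, (d1 3).2] at t3
  simp only [zero_mul, add_zero, one_mul] at t0 t1
  rw [hA] at t1
  rw [s2] at t2
  rw [s3] at t3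
  have c1 := cl 1 (by norm_num)
  have c2 := cl 2 (by norm_num)
  have c3 := cl 3 (by norm_num)
  rw [one_mul] at c1
  refine ⟨?_, m, hm0, hm, ?_⟩
  · exact if (∀ y < 3, D.P y r % D.d = D.P (w q) r % D.d → D.P y r = D.P (w q) r) then q else q + 1
  · unfold Cube
    split_ifs with hcase
    · have f1 := hcase _ (hw _) c1
      have f2 := hcase _ (hw _) c2
      have f3 := hcase _ (hw _) c3
      rw [f1] at t1
      rw [f2] at t2
      rw [f3] at t3
      exact fin_aux h.d0 t0 t1 t2 t3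
    · have hcase2 := (h.typ r hr' (w q) (hw q)).resolve_left hcase
      have f1 := hcase2 _ (hw _) c1
      have f2 := hcase2 _ (hw _) c2
      have f3 := hcase2 _ (hw _) c3
      have u0 := S_succ w q
      have u1 := S_succ w (q + m)
      have u2 := S_succ w (q + 2 * m)
      have u3 := S_succ w (q + 3 * m)
      rw [show q + 1 + 2 * m = q + 2 * m + 1 by ring, show q + 1 + m = q + m + 1 by ring,
        show q + 1 + 3 * m = q + 3 * m + 1 by ring, u0, u1, u2, u3]
      exact fin_aux2 h.d0 t0 t1 t2 t3 f1 f2 f3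

end Pool.Agent.Helper63.TwoPath
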